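import Pool.Agent.N70.PP.Stm

/-!
# Project PP: the polynomial `Θ` for a subgroup of the Galois group
-/

set_option autoImplicit false

open Polynomial

namespace Pool.Agent.N519.PP

open Pool.Agent.H391R2 Pool.Agent.H391R2.T4 Pool.Agent.Y140.AW Pool.Agent.N70.PP

theorem res_ne {L : Type*} [Field L] (f : L[X]) (hf : f.Monic) (hs : f.Separable) :
    resultant f f.derivative f.natDegree (f.natDegree - 1) ≠ 0 := by
  have h1 : f.derivative.natDegree ≤ f.natDegree - 1 := natDegree_derivative_le f
  obtain ⟨k, hk⟩ := Nat.exists_eq_add_of_le h1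
  rw [hk, resultant_add_right_deg _ _ _ _ _ le_rfl, hf.coeff_natDegree, one_pow, one_mul]
  exact resultant_ne_zero _ _ hs

/-- an element which generates the fixed field of a given subgroup -/
theorem exists_fix {L E : Type*} [Field L] [Field E] [Algebra L E] [FiniteDimensional L E]
    [IsGalois L E] (H : Subgroup (E ≃ₐ[L] E)) : ∃ θ : E, ∀ σ : E ≃ₐ[L] E, σ θ = θ ↔ σ ∈ H := by
  obtain ⟨α, hα⟩ := Field.exists_primitive_element L (IntermediateField.fixedField H)
  obtain ⟨a, h1⟩ : ∃ a : E, IntermediateField.adjoin L {a} = IntermediateField.fixedField H := by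
    refine ⟨(α : E), ?_⟩
    have h2 := congrArg (IntermediateField.map (IntermediateField.fixedField H).val) hα
    rw [IntermediateField.adjoin_map, Set.image_singleton] at h2
    rw [← AlgHom.fieldRange_eq_map, IntermediateField.fieldRange_val] at h2
    exact h2
  refine ⟨a, fun σ => ?_⟩
  have h3 : IntermediateField.fixingSubgroup (IntermediateField.fixedField H) = H :=
    IntermediateField.fixingSubgroup_fixedField H
  rw [← h3, ← h1, IntermediateField.mem_fixingSubgroup_iff]
  constructor
  · intro h x hx
    have h4 : IntermediateField.adjoin L {a} ≤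
        IntermediateField.fixedField (Subgroup.zpowers σ) := by
      rw [IntermediateField.adjoin_le_iff, Set.singleton_subset_iff]
      rintro ⟨τ, hτ⟩
      have h5 : Subgroup.zpowers σ ≤ MulAction.stabilizer (E ≃ₐ[L] E) a := by
        rw [Subgroup.zpowers_le]
        exact h
      exact h5 hτ
    exact h4 hx ⟨σ, Subgroup.mem_zpowers σ⟩
  · intro h
    exact h _ (IntermediateField.mem_adjoin_simple_self L _)

/-- the degree of an element with the given stabilizer -/
theorem deg_fix {L E : Type*} [Field L] [Field E] [Algebra L E] [FiniteDimensional L E]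
    [IsGalois L E] (H : Subgroup (E ≃ₐ[L] E)) (θ : E) (h : ∀ σ : E ≃ₐ[L] E, σ θ = θ ↔ σ ∈ H) :
    (minpoly L θ).natDegree = H.index := by
  have h1 : IntermediateField.fixingSubgroup (IntermediateField.adjoin L {θ}) = H := by
    ext σ
    rw [← h σ, IntermediateField.mem_fixingSubgroup_iff]
    constructor
    · intro hx
      exact hx _ (IntermediateField.mem_adjoin_simple_self L _)
    · intro hσ x hx
      have h4 : IntermediateField.adjoin L {θ} ≤
          IntermediateField.fixedField (Subgroup.zpowers σ) := by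
        rw [IntermediateField.adjoin_le_iff, Set.singleton_subset_iff]
        rintro ⟨τ, hτ⟩
        have h5 : Subgroup.zpowers σ ≤ MulAction.stabilizer (E ≃ₐ[L] E) θ := by
          rw [Subgroup.zpowers_le]
          exact hσ
        exact h5 hτ
      exact h4 hx ⟨σ, Subgroup.mem_zpowers σ⟩
  have hθ : IsIntegral L θ := Algebra.IsIntegral.isIntegral θ
  have h2 : Module.finrank L (IntermediateField.adjoin L {θ}) = (minpoly L θ).natDegree :=
    IntermediateField.adjoin.finrank hθ
  have h3 : Module.finrank L (IntermediateField.adjoin L {θ}) *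
      Module.finrank (IntermediateField.adjoin L {θ}) E = Module.finrank L E :=
    Module.finrank_mul_finrank _ _ _
  have h4 : IntermediateField.fixedField H = IntermediateField.adjoin L {θ} := by
    rw [← h1]
    exact IsGalois.fixedField_fixingSubgroup _
  have h5 : Module.finrank (IntermediateField.adjoin L {θ}) E = Nat.card H := by
    rw [← h4]
    exact IntermediateField.finrank_fixedField_eq_card H
  have h6 : Nat.card (E ≃ₐ[L] E) = Module.finrank L E := IsGalois.card_aut_eq_finrank L E
  have h7 := H.index_mul_card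
  rw [h6, ← h3, h5, h2] at h7
  have h8 : 0 < Nat.card H := Nat.card_pos
  exact (Nat.eq_of_mul_eq_mul_right h8 h7).symm

theorem t_dataP : St_dataP := by
  intro K F _ fF aR fd gal P
  obtain ⟨θ0, hθ0⟩ := exists_fix P
  let _ : Algebra K[X] F := ((algebraMap (RatFunc K) F).comp (algebraMap K[X] (RatFunc K))).toAlgebra
  have _ : IsScalarTower K[X] (RatFunc K) F := IsScalarTower.of_algebraMap_eq fun _ => rfl
  have halg : IsAlgebraic K[X] θ0 := by
    rw [IsFractionRing.isAlgebraic_iff K[X] (RatFunc K) F]
    exact Algebra.IsAlgebraic.isAlgebraic θ0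
  obtain ⟨y, hy0, hy⟩ := halg.exists_integral_multiple
  set θ : F := y • θ0 with hθ
  have hy' : algebraMap (RatFunc K) F (algebraMap K[X] (RatFunc K) y) ≠ 0 := by
    rw [Ne, map_eq_zero, map_eq_zero_iff _ (IsFractionRing.injective K[X] (RatFunc K))]
    exact hy0
  have hfix : ∀ σ : F ≃ₐ[RatFunc K] F, σ θ = θ ↔ σ ∈ P := by
    intro σ
    rw [← hθ0 σ, hθ, Algebra.smul_def, IsScalarTower.algebraMap_apply K[X] (RatFunc K) F, map_mul,
      AlgEquiv.commutes]
    exact ⟨fun h => mul_left_cancel₀ hy' h, fun h => by rw [h]⟩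
  have hmin : minpoly (RatFunc K) θ = (minpoly K[X] θ).map (algebraMap K[X] (RatFunc K)) :=
    minpoly.isIntegrallyClosed_eq_field_fractions' (RatFunc K) hy
  have hmon : (minpoly K[X] θ).Monic := minpoly.monic hy
  have hdeg : (minpoly K[X] θ).natDegree = P.index := by
    rw [← deg_fix P θ hfix, hmin, hmon.natDegree_map]
  refine ⟨θ, minpoly K[X] θ,
    resultant (minpoly K[X] θ) (minpoly K[X] θ).derivative (minpoly K[X] θ).natDegree
      ((minpoly K[X] θ).natDegree - 1), hfix, hmin.symm, ?_⟩
  rw [← hdeg]
  refine ⟨hmon, rfl, minpoly.natDegree_pos hy, rfl, ?_⟩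
  intro h0
  have h3 := resultant_map_map (minpoly K[X] θ) (minpoly K[X] θ).derivative
    (minpoly K[X] θ).natDegree ((minpoly K[X] θ).natDegree - 1) (algebraMap K[X] (RatFunc K))
  rw [h0, map_zero, ← derivative_map, ← hmin] at h3
  have h4 : (minpoly K[X] θ).natDegree = (minpoly (RatFunc K) θ).natDegree := by
    rw [hmin, hmon.natDegree_map]
  rw [h4] at h3
  exact res_ne _ (minpoly.monic (Algebra.IsIntegral.isIntegral θ))
    (Algebra.IsSeparable.isSeparable (RatFunc K) θ) h3

end Pool.Agent.N519.PP
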